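import Pool.Agent.Lib.MP_d1aba8_pr.Lim

/-!
# MP_d1aba8_pr: typical-start cutoff fails together with tightness of the mixing times

The definitions (`IsGenerator`, `IsIrred`, `IsStationary`, `trans`, `tv`, `tauFrom`, `IsMedian`,
`IsEigenvalue`, `IsGap`) are in `Pool/Agent/Lib/MP_d1aba8_pr/Defs.lean`.
-/

namespace Pool.Agent.Results.MP_d1aba8_pr.NoTightness

open Pool.Agent.MP_d1aba8_pr
open scoped BigOperators Topology
open Filter

/-- There is a sequence of irreducible finite continuous-time Markov chains with relaxation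
time `1`, whose stationary distributions have no asymptotic atoms and whose (unique) median mixing
times `τ n` tend to infinity, such that at every time `K τ n`, `K > 0` fixed, the total variation
distance from a stationary random start converges in distribution to the law
`(1/4) δ_1 + (3/4) δ_{1/4}`. In particular both halves of the typical-start cutoff fail. -/
theorem result :
    ∃ (S : ℕ → Type) (_ : ∀ n, Fintype (S n)) (_ : ∀ n, DecidableEq (S n))
      (Q : ∀ n, Matrix (S n) (S n) ℝ) (w : ∀ n, S n → ℝ) (τ : ℕ → ℝ),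
      (∀ n, IsGenerator (Q n) ∧ IsIrred (Q n) ∧ IsStationary (Q n) (w n) ∧ IsGap (Q n) 1 ∧
        ∀ m, IsMedian (w n) (tauFrom (Q n) (w n)) m ↔ m = τ n) ∧
      Tendsto (fun n => ⨆ x, w n x) atTop (𝓝 0) ∧
      Tendsto τ atTop atTop ∧
      (∀ K ε : ℝ, 0 < K → 0 < ε → ε ≤ 3 / 8 →
        Tendsto (fun n => ∑ x with 1 - ε < tv (Q n) (w n) x (K * τ n), w n x) atTop
          (𝓝 (1 / 4)) ∧
        Tendsto (fun n => ∑ x with |tv (Q n) (w n) x (K * τ n) - 1 / 4| < ε, w n x) atTop
          (𝓝 (3 / 4))) ∧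
      (∀ ε : ℝ, 0 < ε → ε ≤ 3 / 8 →
        ¬ Tendsto (fun n => ∑ x with tv (Q n) (w n) x ((1 - ε) * τ n) > 1 - ε, w n x) atTop
          (𝓝 1) ∧
        ¬ Tendsto (fun n => ∑ x with tv (Q n) (w n) x ((1 + ε) * τ n) < ε, w n x) atTop
          (𝓝 1)) := by
  obtain ⟨k0, hk0⟩ := eventually_atTop.1 eventually_good
  have hgood : ∀ n, Good (n + k0) := fun n => hk0 (n + k0) (by omega)
  have hu : Tendsto (fun n : ℕ => n + k0) atTop atTop := tendsto_add_atTop_nat k0
  have hlim1 : ∀ K ε : ℝ, 0 < K → 0 < ε → ε ≤ 3 / 8 →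
      Tendsto (fun n => m1 K ε (n + k0)) atTop (𝓝 (1 / 4)) :=
    fun K ε hK hε hε2 => tendsto_m1 hK hε hε2 (fun n => n + k0) hu hgood
  have hlim2 : ∀ K ε : ℝ, 0 < K → 0 < ε → ε ≤ 3 / 8 →
      Tendsto (fun n => m2 K ε (n + k0)) atTop (𝓝 (3 / 4)) :=
    fun K ε hK hε hε2 => tendsto_m2 hK hε hε2 (fun n => n + k0) hu hgood
  refine ⟨fun n => St (lk (n + k0)) (n + k0), fun n => inferInstance, fun n => inferInstance,
    fun n => Qk (n + k0), fun n => Wk (n + k0), fun n => tk (n + k0), ?_, ?_, ?_, ?_, ?_⟩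
  · intro n
    have hg := hgood n
    exact ⟨isGenerator _ _ (pk_pos hg.one).le (pk_lt_one _).le,
      isIrred _ _ (pk_pos hg.one) (pk_lt_one _),
      isStationary _ _ (pk_pos hg.one).le (pk_lt_one _).le,
      isGap _ _ _, fun m => isMedian_iff hg m⟩
  · exact tendsto_atoms (fun n => n + k0) hu hgood
  · exact tendsto_tk (fun n => n + k0) hu hgood
  · intro K ε hK hε hε2
    exact ⟨hlim1 K ε hK hε hε2, hlim2 K ε hK hε hε2⟩
  · intro ε hε hε2
    constructor
    · intro h
      have h1 := hlim1 (1 - ε) ε (by linarith) hε hε2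
      have h2 := tendsto_nhds_unique h h1
      norm_num at h2
    · intro h
      have h1 := hlim1 (1 + ε) (3 / 8) (by linarith) (by norm_num) le_rfl
      have h2 : ∀ n, (∑ x with tv (Qk (n + k0)) (Wk (n + k0)) x ((1 + ε) * tk (n + k0)) < ε,
          Wk (n + k0) x) ≤ 1 - m1 (1 + ε) (3 / 8) (n + k0) := by
        intro n
        have h3 : (∑ x with tv (Qk (n + k0)) (Wk (n + k0)) x ((1 + ε) * tk (n + k0)) < ε,
            Wk (n + k0) x) + m1 (1 + ε) (3 / 8) (n + k0) ≤ 1 := by
          unfold m1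
          rw [← Finset.sum_union, ← W_sum (lk (n + k0)) (n + k0) (pk (n + k0))]
          · exact Finset.sum_le_univ_sum_of_nonneg (fun s => Wk_nonneg (hgood n) s)
          · rw [Finset.disjoint_filter]
            intro s _ h4 h5
            linarith
        linarith
      have h3 := h1.const_sub 1
      have h4 := le_of_tendsto_of_tendsto' h h3 h2
      norm_num at h4

end Pool.Agent.Results.MP_d1aba8_pr.NoTightness
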