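import Pool.Agent.Lib.MP_d1aba8_pr.Sharp

/-!
# MP_d1aba8_pr: at `K` times the median mixing time at most a quarter of the starts is unmixed

The definitions (`IsGenerator`, `IsIrred`, `IsStationary`, `trans`, `tv`, `tauFrom`, `IsMedian`)
are in `Pool/Agent/Lib/MP_d1aba8_pr/Defs.lean`.
-/

namespace Pool.Agent.Results.MP_d1aba8_pr.QuarterBound

open Pool.Agent.MP_d1aba8_pr
open scoped BigOperators

/-- In every irreducible finite continuous-time Markov chain (no condition on the relaxation
time, no reversibility), if `m` is a median of the mixing times `τ_x` of stationary random starts,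
then at time `K m` the starts with total variation distance more than `1 - ε` have mass at most
`1/4 + 1/(K (1 - (4/3) K ε))`. -/
theorem result (S : Type) [Fintype S] [DecidableEq S] (Q : Matrix S S ℝ) (w : S → ℝ)
    (hQ : IsGenerator Q) (hI : IsIrred Q) (hw : IsStationary Q w)
    (m : ℝ) (hm : IsMedian w (tauFrom Q w) m) (K : ℕ) (hK : 1 ≤ K)
    (ε : ℝ) (hε : 0 < ε) (hKε : 4 / 3 * K * ε < 1) :
    ∑ x with 1 - ε < tv Q w x (K * m), w x ≤ 1 / 4 + 1 / (K * (1 - 4 / 3 * K * ε)) :=
  universal hQ hI hw hm K hK hε hKε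

end Pool.Agent.Results.MP_d1aba8_pr.QuarterBound
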