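import Pool.Agent.Lib.MP_d1aba8_pr.Rev4

/-!
# MP_d1aba8_pr: the reversible case — deterministic profile and tightness of the mixing times

The definitions (`IsGenerator`, `IsIrred`, `IsStationary`, `trans`, `tv`, `tauFrom`, `IsMedian`,
`IsEigenvalue`, `IsGap`) are in `Pool/Agent/Lib/MP_d1aba8_pr/Defs.lean`.
-/

namespace Pool.Agent.Results.MP_d1aba8_pr.Reversible

open Pool.Agent.MP_d1aba8_pr
open scoped BigOperators Topology
open Filter

/-- the mean over a stationary random start of the total variation distance at time `t` -/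
noncomputable def meanTv {S : Type} [Fintype S] [DecidableEq S] (Q : Matrix S S ℝ) (w : S → ℝ)
    (t : ℝ) : ℝ := ∑ x, w x * tv Q w x t

lemma tendsto_zero_of_eventually {f : ℕ → ℝ} (h0 : ∀ n, 0 ≤ f n)
    (h : ∀ κ : ℝ, 0 < κ → ∀ᶠ n in atTop, f n ≤ κ) : Tendsto f atTop (𝓝 0) := by
  rw [Metric.tendsto_atTop]
  intro e he
  obtain ⟨N, hN⟩ := eventually_atTop.1 (h (e / 2) (by positivity))
  refine ⟨N, fun n hn => ?_⟩
  rw [Real.dist_eq, sub_zero, abs_of_nonneg (h0 n)]
  linarith [hN n hn]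

/-- For reversible chains with `τ / τ₂ → ∞`: the total variation distance from a stationary random
start is asymptotically deterministic (1), it is at least `1/4 - o(1)` before `τ` and decays at
least like `2 ^ (-K-1)` at times beyond `K τ` (2), (3), and any two typical mixing times differ by
a factor at most `2 + o(1)` (4), (5). -/
theorem result (S : ℕ → Type) [∀ n, Fintype (S n)] [∀ n, DecidableEq (S n)]
    (Q : ∀ n, Matrix (S n) (S n) ℝ) (w : ∀ n, S n → ℝ) (lam τ : ℕ → ℝ)
    (hQ : ∀ n, IsGenerator (Q n)) (hI : ∀ n, IsIrred (Q n))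
    (hw : ∀ n, IsStationary (Q n) (w n))
    (hrev : ∀ n x y, w n x * Q n x y = w n y * Q n y x)
    (hgap : ∀ n, IsGap (Q n) (lam n))
    (hτ : ∀ n, IsMedian (w n) (tauFrom (Q n) (w n)) (τ n))
    (hlim : Tendsto (fun n => τ n * lam n) atTop atTop) :
    (∀ s s' δ : ℝ, 0 ≤ s → s < s' → 0 < δ →
      Tendsto (fun n => ∑ x with tv (Q n) (w n) x (s * τ n) <
        meanTv (Q n) (w n) (s' * τ n) - δ, w n x) atTop (𝓝 0) ∧
      Tendsto (fun n => ∑ x with meanTv (Q n) (w n) (s * τ n) + δ <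
        tv (Q n) (w n) x (s' * τ n), w n x) atTop (𝓝 0)) ∧
    (∀ ε δ : ℝ, 0 < ε → ε ≤ 1 → 0 < δ →
      Tendsto (fun n => ∑ x with tv (Q n) (w n) x ((1 - ε) * τ n) < 1 / 4 - δ, w n x)
        atTop (𝓝 0)) ∧
    (∀ (K : ℕ) (ε δ : ℝ), 1 ≤ K → 0 < ε → 0 < δ →
      Tendsto (fun n => ∑ x with (1 / 2) ^ (K + 1) + δ < tv (Q n) (w n) x (K * (1 + ε) * τ n),
        w n x) atTop (𝓝 0)) ∧
    (∀ ε : ℝ, 0 < ε →
      Tendsto (fun n => ∑ x with tauFrom (Q n) (w n) x < (1 / 2 - ε) * τ n ∨
        (2 + ε) * τ n < tauFrom (Q n) (w n) x, w n x) atTop (𝓝 0)) ∧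
    (∀ ε : ℝ, 0 < ε →
      Tendsto (fun n => ∑ p : S n × S n with
        (2 + ε) * tauFrom (Q n) (w n) p.2 < tauFrom (Q n) (w n) p.1, w n p.1 * w n p.2)
        atTop (𝓝 0)) := by
  have h : ∀ n, RevChain (Q n) (w n) (lam n) := fun n => ⟨hQ n, hI n, hw n, hrev n, hgap n⟩
  have hτ0 : ∀ n, 0 ≤ τ n := fun n => median_nonneg (hτ n)
  have hnn : ∀ n x, 0 ≤ w n x := fun n => (hw n).nonneg
  refine ⟨?_, ?_, ?_, ?_, ?_⟩
  · intro s s' δ hs hss hδ
    exact ⟨tendsto_zero_of_eventually (fun n => Finset.sum_nonneg fun x _ => hnn n x)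
        fun κ hκ => mean_down h hτ0 hlim hs hss hδ hκ,
      tendsto_zero_of_eventually (fun n => Finset.sum_nonneg fun x _ => hnn n x)
        fun κ hκ => mean_up h hτ0 hlim hs hss hδ hκ⟩
  · intro ε δ hε hε1 hδ
    exact tendsto_zero_of_eventually (fun n => Finset.sum_nonneg fun x _ => hnn n x)
      fun κ hκ => lower_quarter h hτ hlim hε hε1 hδ hκ
  · intro K ε δ hK hε hδ
    obtain ⟨k, rfl⟩ : ∃ k, K = k + 1 := ⟨K - 1, by omega⟩
    refine tendsto_zero_of_eventually (fun n => Finset.sum_nonneg fun x _ => hnn n x)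
      fun κ hκ => ?_
    have := decay h hτ hlim hε k δ κ hδ hκ
    filter_upwards [this] with n hn
    push_cast
    exact hn
  · intro ε hε
    refine tendsto_zero_of_eventually (fun n => Finset.sum_nonneg fun x _ => hnn n x)
      fun κ hκ => ?_
    obtain ⟨κ₁, k1, k2, k3⟩ : ∃ κ₁ : ℝ, 0 < κ₁ ∧ κ₁ ≤ κ / 2 ∧ κ₁ ≤ 1 / 4 :=
      ⟨min (κ / 2) (1 / 4), by positivity, min_le_left _ _, min_le_right _ _⟩
    filter_upwards [lower_half h hτ hlim hε k1, upper_two h hτ0 hlim hε k1] with n h1 h2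
    have h3 := h2 (by have := (hτ n).1; linarith)
    refine le_trans (sum_filter_or (hnn n)
      (q := fun x => tauFrom (Q n) (w n) x ≤ (1 / 2 - ε) * τ n)
      (r := fun x => (2 + ε) * τ n < tauFrom (Q n) (w n) x) ?_) ?_
    · intro x hx
      rcases hx with hx | hx
      · exact Or.inl hx.le
      · exact Or.inr hx
    · linarith
  · intro ε hε
    refine tendsto_zero_of_eventually (fun n => Finset.sum_nonneg fun x _ =>
      mul_nonneg (hnn n _) (hnn n _)) fun κ hκ => ?_
    filter_upwards [pairs h hτ hlim hε (show 0 < κ / 2 by positivity)] with n hn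
    obtain ⟨a, ha1, ha2⟩ := hn
    have e1 : ∑ p : S n × S n with tauFrom (Q n) (w n) p.2 < a, w n p.1 * w n p.2 =
        ∑ y with tauFrom (Q n) (w n) y < a, w n y := by
      rw [Finset.sum_filter, Fintype.sum_prod_type_right, Finset.sum_filter]
      refine Finset.sum_congr rfl fun y _ => ?_
      simp only
      split_ifs
      · rw [← Finset.sum_mul, (hw n).sum_one, one_mul]
      · exact Finset.sum_const_zero
    have e2 : ∑ p : S n × S n with (2 + ε) * a < tauFrom (Q n) (w n) p.1, w n p.1 * w n p.2 =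
        ∑ x with (2 + ε) * a < tauFrom (Q n) (w n) x, w n x := by
      rw [Finset.sum_filter, Fintype.sum_prod_type, Finset.sum_filter]
      refine Finset.sum_congr rfl fun x _ => ?_
      simp only
      split_ifs
      · rw [← Finset.mul_sum, (hw n).sum_one, mul_one]
      · exact Finset.sum_const_zero
    have h1 : ∑ p : S n × S n with
        (2 + ε) * tauFrom (Q n) (w n) p.2 < tauFrom (Q n) (w n) p.1, w n p.1 * w n p.2 ≤
        ∑ p : S n × S n with tauFrom (Q n) (w n) p.2 < a, w n p.1 * w n p.2 +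
        ∑ p : S n × S n with (2 + ε) * a < tauFrom (Q n) (w n) p.1, w n p.1 * w n p.2 := by
      refine sum_filter_or (w := fun p : S n × S n => w n p.1 * w n p.2)
        (fun p => mul_nonneg (hnn n _) (hnn n _)) ?_
      intro p hp
      by_cases hc : tauFrom (Q n) (w n) p.2 < a
      · exact Or.inl hc
      · push Not at hc
        right
        have : (2 + ε) * a ≤ (2 + ε) * tauFrom (Q n) (w n) p.2 :=
          mul_le_mul_of_nonneg_left hc (by linarith)
        linarith
    rw [e1, e2] at h1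
    linarith

end Pool.Agent.Results.MP_d1aba8_pr.Reversible
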